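import Pool.Agent.R998.PIIdent
import Pool.Agent.R998.PauliKL

/-!
# A permutation-invariant qubit code of length 59 correcting 4 errors

The conjecture of MP_901209_mp says that the minimal length of a permutation-invariant code
encoding one qubit and correcting `t` errors is `3 t^2 + 3 t + 1`, which is `61` for `t = 4`.
We prove that there is such a code of length `59` with `t = 4`.
-/

namespace Pool.Agent.Results.MP_901209_mp.ShortPICode

open Finset
open scoped ComplexConjugate Matrix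

/-- The one-qubit Pauli matrices: `pauli 0 = I`, `pauli 1 = X`, `pauli 2 = Y`, `pauli 3 = Z`. -/
noncomputable def pauli : Fin 4 → Matrix (Fin 2) (Fin 2) ℂ :=
  ![1, !![0, 1; 1, 0], !![0, -Complex.I; Complex.I, 0], !![1, 0; 0, -1]]

/-- The `n`-qubit Pauli operator `pauli (P 0) ⊗ ⋯ ⊗ pauli (P (n-1))`, as a matrix indexed by bit
strings `x : Fin n → Fin 2` (computational basis). -/
noncomputable def pauliString {n : ℕ} (P : Fin n → Fin 4) :
    Matrix (Fin n → Fin 2) (Fin n → Fin 2) ℂ :=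
  Matrix.of fun x y => ∏ i, pauli (P i) (x i) (y i)

/-- The weight of a Pauli operator: the number of qubits on which it acts non-trivially. -/
def weight {n : ℕ} (P : Fin n → Fin 4) : ℕ := (univ.filter fun i => P i ≠ 0).card

/-- `IsPICode n t c`: the vectors `c 0, c 1` of `(ℂ²)^{⊗ n}` are codewords of a
permutation-invariant qubit code of block length `n` correcting `t` errors. -/
structure IsPICode (n t : ℕ) (c : Fin 2 → (Fin n → Fin 2) → ℂ) : Prop where
  /-- the codewords are fixed by all permutations of the qubits -/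
  perm_invariant : ∀ (i : Fin 2) (σ : Equiv.Perm (Fin n)) (x : Fin n → Fin 2),
    c i (x ∘ σ) = c i x
  /-- the codewords are orthonormal -/
  orthonormal : ∀ i k : Fin 2, star (c i) ⬝ᵥ c k = if i = k then 1 else 0
  /-- Knill-Laflamme conditions for all pairs of Pauli errors of weight at most `t` -/
  knill_laflamme : ∀ E F : Fin n → Fin 4, weight E ≤ t → weight F ≤ t →
    ∃ lam : ℂ, ∀ i k : Fin 2,
      star (c i) ⬝ᵥ (((pauliString E)ᴴ * pauliString F) *ᵥ c k) = if i = k then lam else 0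

open Pool.Agent.R998 Pool.Agent.R998.PI Pool.Agent.R998.KL

/-- entries of `E^† F` -/
theorem string_mul {n : ℕ} (E F : Fin n → Fin 4) (x y : Fin n → Fin 2) :
    ((pauliString E)ᴴ * pauliString F) x y = ∏ i, ((pauli (E i))ᴴ * pauli (F i)) (x i) (y i) := by
  simp only [Matrix.mul_apply, pauliString, Matrix.conjTranspose_apply, Matrix.of_apply]
  rw [Finset.prod_univ_sum]
  simp only [Fintype.piFinset_univ]
  apply Finset.sum_congr rfl
  intro z _
  rw [star_prod, ← Finset.prod_mul_distrib]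

/-- Sufficient condition for the Knill-Laflamme conditions of symmetric states. -/
theorem kl_of_reduced (n t : ℕ) (hn : 2 * t ≤ n) (g : Fin 2 → ℕ → ℂ)
    (h01 : ∀ a b, a ≤ 2 * t → b ≤ 2 * t → Rab (n - 2 * t) (g 0) (g 1) a b = 0)
    (h10 : ∀ a b, a ≤ 2 * t → b ≤ 2 * t → Rab (n - 2 * t) (g 1) (g 0) a b = 0)
    (h11 : ∀ a b, a ≤ 2 * t → b ≤ 2 * t →
      Rab (n - 2 * t) (g 1) (g 1) a b = Rab (n - 2 * t) (g 0) (g 0) a b)
    (E F : Fin n → Fin 4) (hE : weight E ≤ t) (hF : weight F ≤ t) :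
    ∃ lam : ℂ, ∀ i k : Fin 2,
      star (fun x : Fin n → Fin 2 => g i (wt x)) ⬝ᵥ
        (((pauliString E)ᴴ * pauliString F) *ᵥ (fun x => g k (wt x))) =
          if i = k then lam else 0 := by
  -- a set of exactly `2 t` qubits containing the supports of both operators
  have hcard : ((univ.filter fun i => E i ≠ 0) ∪ (univ.filter fun i => F i ≠ 0)).card ≤ 2 * t := by
    refine (Finset.card_union_le _ _).trans ?_
    unfold weight at hE hF
    omega
  obtain ⟨s, hs1, hs2⟩ := Finset.exists_superset_card_eq hcard (by simpa using hn)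
  obtain ⟨p, hp⟩ : ∃ p : Fin n → Prop, ∀ i, p i ↔ i ∈ s := ⟨fun i => i ∈ s, fun _ => Iff.rfl⟩
  classical
  have hM : ∀ i, ¬ (p i) → (pauli (E i))ᴴ * pauli (F i) = 1 := by
    intro i hi
    rw [hp] at hi
    have h1 : E i = 0 := by
      by_contra h
      exact hi (hs1 (Finset.mem_union_left _ (by simpa using h)))
    have h2 : F i = 0 := by
      by_contra h
      exact hi (hs1 (Finset.mem_union_right _ (by simpa using h)))
    rw [h1, h2]
    simp [pauli]
  have hc2 : Fintype.card {i // p i} = 2 * t := by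
    rw [Fintype.card_subtype, ← hs2]
    congr 1
    ext i
    simp [hp]
  have hc1 : Fintype.card {i // ¬ p i} = n - 2 * t := by
    rw [Fintype.card_subtype_compl, hc2]
    simp
  have key : ∀ i k : Fin 2, star (fun x : Fin n → Fin 2 => g i (wt x)) ⬝ᵥ
        (((pauliString E)ᴴ * pauliString F) *ᵥ (fun x => g k (wt x))) =
      ∑ u : {i // p i} → Fin 2, ∑ v : {i // p i} → Fin 2,
        (∏ i, ((pauli (E i.1))ᴴ * pauli (F i.1)) (u i) (v i)) *
        Rab (n - 2 * t) (g i) (g k) (wt u) (wt v) := by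
    intro i k
    have := reduce p (fun i => (pauli (E i))ᴴ * pauli (F i)) hM (g i) (g k)
    rw [hc1] at this
    refine Eq.trans ?_ this
    simp only [dotProduct, Matrix.mulVec, Pi.star_apply, Finset.mul_sum, string_mul]
    apply Finset.sum_congr rfl; intro x _
    apply Finset.sum_congr rfl; intro y _
    simp only [RCLike.star_def]
    ring
  have hu : ∀ u : {i // p i} → Fin 2, wt u ≤ 2 * t := fun u => hc2 ▸ wt_le u
  refine ⟨∑ u : {i // p i} → Fin 2, ∑ v : {i // p i} → Fin 2,
        (∏ i, ((pauli (E i.1))ᴴ * pauli (F i.1)) (u i) (v i)) *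
        Rab (n - 2 * t) (g 0) (g 0) (wt u) (wt v), ?_⟩
  intro i k
  rw [key]
  have z : ∀ f : ({i // p i} → Fin 2) → ({i // p i} → Fin 2) → ℂ, (∀ u v, f u v = 0) →
      ∑ u : {i // p i} → Fin 2, ∑ v : {i // p i} → Fin 2,
        (∏ i, ((pauli (E i.1))ᴴ * pauli (F i.1)) (u i) (v i)) * f u v = 0 := by
    intro f hf
    apply Finset.sum_eq_zero; intro u _
    apply Finset.sum_eq_zero; intro v _
    rw [hf, mul_zero]
  fin_cases i <;> fin_cases k
  · simp
  · simp only [Fin.zero_eta, Fin.mk_one, zero_ne_one, if_false]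
    exact z _ fun u v => h01 _ _ (hu u) (hu v)
  · simp only [Fin.zero_eta, Fin.mk_one, one_ne_zero, if_false]
    exact z _ fun u v => h10 _ _ (hu u) (hu v)
  · simp only [Fin.mk_one, if_true]
    apply Finset.sum_congr rfl; intro u _
    apply Finset.sum_congr rfl; intro v _
    rw [h11 _ _ (hu u) (hu v)]

theorem sum_sq_pos {ι : Type*} [Fintype ι] (f : ι → ℂ) (i : ι) (h : f i ≠ 0) :
    0 < ∑ y, ‖f y‖ ^ 2 := by
  have : 0 < ‖f i‖ ^ 2 := by positivity
  exact Finset.sum_pos' (fun y _ => sq_nonneg _) ⟨i, Finset.mem_univ _, this⟩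

/-- first codeword (unnormalised), as a function of the number of ones -/
noncomputable def g0 (x : ℕ → ℝ) (j : ℕ) : ℂ := (ga x j : ℂ) + (gb x j : ℂ) * Complex.I

/-- second codeword (unnormalised): the time reversal of the first -/
noncomputable def g1 (x : ℕ → ℝ) (j : ℕ) : ℂ := (-1) ^ j * conj (g0 x (59 - j))

theorem R00 (x : ℕ → ℝ) (a b : ℕ) :
    Rab 51 (g0 x) (g0 x) a b = (DRe x a b : ℂ) + (DIm x a b : ℂ) * Complex.I := by
  unfold Rab DRe DIm g0
  push_cast
  rw [Finset.sum_mul, ← Finset.sum_add_distrib]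
  apply Finset.sum_congr rfl
  intro k _
  simp only [map_add, map_mul, Complex.conj_ofReal, Complex.conj_I]
  linear_combination (-(Nat.choose 51 k : ℂ) * gb x (a + k) * gb x (b + k)) * Complex.I_sq

theorem R01 (x : ℕ → ℝ) (a b : ℕ) :
    Rab 51 (g0 x) (g1 x) a b = (ORe x a b : ℂ) + (OIm x a b : ℂ) * Complex.I := by
  unfold Rab ORe OIm g1 g0
  push_cast
  rw [Finset.sum_mul, ← Finset.sum_add_distrib]
  apply Finset.sum_congr rfl
  intro k _
  simp only [map_add, map_mul, Complex.conj_ofReal, Complex.conj_I]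
  linear_combination ((Nat.choose 51 k : ℂ) * (-1) ^ (b + k) * gb x (a + k) *
    gb x (59 - (b + k))) * Complex.I_sq

theorem Rab_conj (m : ℕ) (g g' : ℕ → ℂ) (a b : ℕ) : Rab m g' g a b = conj (Rab m g g' b a) := by
  unfold Rab
  rw [map_sum]
  apply Finset.sum_congr rfl
  intro k _
  simp only [map_mul, Complex.conj_conj, map_natCast]
  ring

theorem R11 (x : ℕ → ℝ) (a b : ℕ) (ha : a ≤ 8) (hb : b ≤ 8) :
    Rab 51 (g1 x) (g1 x) a b = (-1) ^ (a + b) * Rab 51 (g0 x) (g0 x) (8 - b) (8 - a) := by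
  unfold Rab
  rw [← Finset.sum_range_reflect, Finset.mul_sum]
  apply Finset.sum_congr rfl
  intro k hk
  have hk' : k ≤ 51 := by have := Finset.mem_range.mp hk; omega
  have e1 : 51 + 1 - 1 - k = 51 - k := by omega
  have e2 : 59 - (a + (51 - k)) = 8 - a + k := by omega
  have e3 : 59 - (b + (51 - k)) = 8 - b + k := by omega
  have e4 : Nat.choose 51 (51 - k) = Nat.choose 51 k := Nat.choose_symm hk'
  rw [e1, e4]
  unfold g1
  rw [e2, e3]
  simp only [map_mul, map_pow, map_neg, map_one, Complex.conj_conj]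
  have e5 : ((-1 : ℂ)) ^ (a + (51 - k)) * (-1) ^ (b + (51 - k)) = (-1) ^ (a + b) := by
    rw [← pow_add, show a + (51 - k) + (b + (51 - k)) = (a + b) + 2 * (51 - k) by omega,
      pow_add, pow_mul]
    norm_num
  linear_combination ((Nat.choose 51 k : ℂ) * g0 x (8 - a + k) * conj (g0 x (8 - b + k))) * e5

theorem exists_code : ∃ c : Fin 2 → (Fin 59 → Fin 2) → ℂ, IsPICode 59 4 c := by
  obtain ⟨x, hx1, hx2⟩ := exists_x
  set g : Fin 2 → ℕ → ℂ := ![g0 x, g1 x] with hg
  have h01 : ∀ a b, a ≤ 2 * 4 → b ≤ 2 * 4 → Rab (59 - 2 * 4) (g 0) (g 1) a b = 0 := by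
    intro a b ha hb
    have := O_zero hx2 a b ha hb
    show Rab 51 (g0 x) (g1 x) a b = 0
    rw [R01, this.1, this.2]; simp
  have h10 : ∀ a b, a ≤ 2 * 4 → b ≤ 2 * 4 → Rab (59 - 2 * 4) (g 1) (g 0) a b = 0 := by
    intro a b ha hb
    rw [Rab_conj, h01 b a hb ha, map_zero]
  have h11 : ∀ a b, a ≤ 2 * 4 → b ≤ 2 * 4 →
      Rab (59 - 2 * 4) (g 1) (g 1) a b = Rab (59 - 2 * 4) (g 0) (g 0) a b := by
    intro a b ha hb
    show Rab 51 (g1 x) (g1 x) a b = Rab 51 (g0 x) (g0 x) a b
    have := D_sym hx2 a b ha hb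
    rw [R11 x a b ha hb, R00, R00, this.1, this.2]
    push_cast; ring
  have hkl := kl_of_reduced 59 4 (by norm_num) g h01 h10 h11
  -- squared norm
  obtain ⟨lam, hlam⟩ := hkl (fun _ => 0) (fun _ => 0) (by simp [weight]) (by simp [weight])
  have hone : ((pauliString (fun _ : Fin 59 => (0 : Fin 4)))ᴴ *
      pauliString (fun _ : Fin 59 => (0 : Fin 4))) = 1 := by
    ext u v
    rw [string_mul]
    have h1 : (pauli 0)ᴴ * pauli 0 = 1 := by simp [pauli]
    simp only [h1, Matrix.one_apply]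
    by_cases h : u = v
    · subst h; simp
    · rw [if_neg h]
      obtain ⟨i, hi⟩ := Function.ne_iff.mp h
      exact Finset.prod_eq_zero (Finset.mem_univ i) (if_neg hi)
  rw [hone] at hlam
  simp only [Matrix.one_mulVec] at hlam
  have hlam0 := hlam 0 0
  rw [if_pos rfl] at hlam0
  set r : ℝ := ∑ y : Fin 59 → Fin 2, ‖g 0 (wt y)‖ ^ 2 with hr
  have hlamr : lam = (r : ℂ) := by
    rw [← hlam0, hr]
    simp only [dotProduct, Pi.star_apply, RCLike.star_def]
    push_cast
    apply Finset.sum_congr rfl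
    intro y _
    rw [mul_comm, Complex.mul_conj, Complex.normSq_eq_norm_sq]
    push_cast; rfl
  have hrpos : 0 < r := by
    -- a bit string with 47 ones
    obtain ⟨y0, hy0⟩ : ∃ y0 : Fin 59 → Fin 2, wt y0 = 47 := by
      refine ⟨fun i => if (i : ℕ) < 47 then 1 else 0, ?_⟩
      unfold wt
      rw [← Finset.sum_range (n := 59)
        (f := fun i : ℕ => ((if i < 47 then (1 : Fin 2) else 0 : Fin 2) : ℕ))]
      decide +kernel
    have hne : g 0 (wt y0) ≠ 0 := by
      rw [hy0]
      show g0 x 47 ≠ 0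
      intro h0
      have hre := congrArg Complex.re h0
      simp only [g0, Complex.add_re, Complex.ofReal_re, Complex.mul_re, Complex.I_re, mul_zero,
        Complex.ofReal_im, Complex.I_im, mul_one, sub_self, add_zero, Complex.zero_re] at hre
      have e1 : (47 : ℕ) % 3 = 2 := by norm_num
      have e2 : rF (47 / 3) = 38 := by decide +kernel
      unfold ga at hre
      rw [if_pos e1, e2, hx1 38 (by norm_num)] at hre
      have e3 : vF 38 = 67108864 := by decide +kernel
      rw [e3] at hre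
      have e4 : (0 : ℝ) < 2 ^ eF (47 / 3) := by positivity
      have e5 : ((67108864 : ℤ) : ℝ) / 2 ^ eF (47 / 3) > 0 := by positivity
      linarith
    exact sum_sq_pos (fun y : Fin 59 → Fin 2 => g 0 (wt y)) y0 hne
  -- normalised codewords
  set s : ℝ := (Real.sqrt r)⁻¹ with hs
  have hs2 : s * s * r = 1 := by
    rw [hs]
    have : Real.sqrt r ≠ 0 := (Real.sqrt_pos.mpr hrpos).ne'
    field_simp
    exact (Real.sq_sqrt hrpos.le).symm
  have hs2c : (s : ℂ) * s * r = 1 := by exact_mod_cast hs2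
  refine ⟨fun i y => (s : ℂ) * g i (wt y), ?_, ?_, ?_⟩
  · intro i σ y
    show (s : ℂ) * g i (wt (y ∘ σ)) = (s : ℂ) * g i (wt y)
    rw [wt_comp]
  · intro i k
    have h := hlam i k
    have e : star (fun y : Fin 59 → Fin 2 => (s : ℂ) * g i (wt y)) ⬝ᵥ
        (fun y : Fin 59 → Fin 2 => (s : ℂ) * g k (wt y))
        = (s : ℂ) * s * (star (fun y : Fin 59 → Fin 2 => g i (wt y)) ⬝ᵥ
          (fun y : Fin 59 → Fin 2 => g k (wt y))) := by
      simp only [dotProduct, Pi.star_apply, Finset.mul_sum]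
      apply Finset.sum_congr rfl; intro y _
      simp only [RCLike.star_def, map_mul, Complex.conj_ofReal]
      ring
    rw [e, h, hlamr]
    split_ifs
    · exact hs2c
    · simp
  · intro E F hE hF
    obtain ⟨mu, hmu⟩ := hkl E F hE hF
    refine ⟨(s : ℂ) * s * mu, ?_⟩
    intro i k
    have h := hmu i k
    have e1 : (fun y : Fin 59 → Fin 2 => (s : ℂ) * g k (wt y))
        = (s : ℂ) • (fun y : Fin 59 → Fin 2 => g k (wt y)) := rfl
    have e2 : (fun y : Fin 59 → Fin 2 => (s : ℂ) * g i (wt y))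
        = (s : ℂ) • (fun y : Fin 59 → Fin 2 => g i (wt y)) := rfl
    show star (fun y : Fin 59 → Fin 2 => (s : ℂ) * g i (wt y)) ⬝ᵥ _ = _
    rw [e1, e2, Matrix.mulVec_smul, star_smul, smul_dotProduct, dotProduct_smul, h]
    simp only [smul_eq_mul, RCLike.star_def, Complex.conj_ofReal]
    split_ifs
    · ring
    · simp

/-- There is a permutation-invariant qubit code of block length `59` correcting `4` errors;
hence the minimal block length is not `3 t^2 + 3 t + 1` for all `t ≥ 1` (for `t = 4` this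
number is `61`). -/
theorem result :
    (∃ c : Fin 2 → (Fin 59 → Fin 2) → ℂ, IsPICode 59 4 c) ∧
    ¬ ∀ t : ℕ, 1 ≤ t →
      IsLeast {n : ℕ | ∃ c : Fin 2 → (Fin n → Fin 2) → ℂ, IsPICode n t c}
        (3 * t ^ 2 + 3 * t + 1) := by
  refine ⟨exists_code, ?_⟩
  intro h
  have h4 := (h 4 (by norm_num)).2 exists_code
  norm_num at h4

end Pool.Agent.Results.MP_901209_mp.ShortPICode
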